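import Pool.Agent.Helper32.DS.Side

/-! # DS-S1: the scale at the generic point -/

set_option autoImplicit false
set_option linter.unusedSectionVars false

namespace Pool.Agent.Helper50.DS

open Set Filter Pool.Agent.Helper33.HM Pool.Agent.Helper33.HMG Pool.Agent.Helper32.HB
open Pool.Agent.Helper94.BA (decV codV fnLe shV sh decV_isFn decV_codV h82_eqN_sup h32_Ev h32_self
  h32_all h32_ex h32_not h32_imp h32_or h32_and h32_congr h32_sq h32_cq h32_sq_nm h32_fr_shV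
  h32_exists_compl)

section Point

variable {P₀ : Type 1} [Preorder P₀] [OrderTop P₀]
variable {R : Type} {W : R → (ℕ → Nm P₀) → P₀ → Nm P₀ → Prop} {gn : Gen W} {J : Type 1}
  [LinearOrder J] {w : J → RO P₀} {g : J → ℕ → ℕ → RO P₀} {A₀ : Set Node}

/-- The function named by `φ` at the generic filter. -/
noncomputable def Fm (G : GF P₀) (φ : ℕ → ℕ → RO P₀) (m : ℕ) : ℕ := sInf {k | Fr G (φ m k)}

/-- The function on the tree. -/
noncomputable def Ft (G : GF P₀) (φ : ℕ → ℕ → RO P₀) (a : Node) : ℕ := Fm G φ (N a)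

theorem fm_iff {G : GF P₀} {φ : ℕ → ℕ → RO P₀} (h : IsFn Set.univ φ) {m : ℕ}
    (ht : ∃ k, Fr G (φ m k)) (k : ℕ) : Fr G (φ m k) ↔ Fm G φ m ≤ k := by
  constructor
  · intro h1
    exact Nat.sInf_le h1
  · intro h1
    have h2 : Fr G (φ m (Fm G φ m)) := Nat.sInf_mem ht
    exact fr_mono (monotone_nat_of_le_succ (h.mono m) h1) h2

variable (hS : SideH gn w g A₀)

include hS

theorem re_mem {τ : Nm P₀} (hτ : τ ∈ gn.N) : nm (rl τ) ∈ gn.N := by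
  obtain ⟨k, hk | hk⟩ := hS.req .re [τ] (by simpa using hτ)
  · obtain ⟨x, hx, hx'⟩ := hk
    have e : x = nm (rl τ) := hx'
    rw [← e]
    exact hx
  · exact absurd rfl (hk _ le_rfl (nm (rl τ)))

theorem sh_mem (s : ℕ) {x : ℕ → RO P₀} (hx : nm x ∈ gn.N) : nm (shV s x) ∈ gn.N := by
  obtain ⟨k, hk | hk⟩ := hS.req (.sh s) [nm x] (by simpa using hx)
  · obtain ⟨y, hy, hy'⟩ := hk
    have e : y = nm (shV s (rl (nm x))) := hy'
    rw [rl_nm] at e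
    rw [← e]
    exact hy
  · exact absurd rfl (hk _ le_rfl (nm (shV s (rl (nm x)))))

theorem sq_mem (i : ℕ) {τ : Nm P₀} (hτ : τ ∈ gn.N) : nm (h32_sq τ i) ∈ gn.N := by
  obtain ⟨k, hk | hk⟩ := hS.req (.sq i) [τ] (by simpa using hτ)
  · obtain ⟨x, hx, hx'⟩ := hk
    have e : x = nm (h32_sq τ i) := hx'
    rw [← e]
    exact hx
  · exact absurd rfl (hk _ le_rfl (nm (h32_sq τ i)))

theorem wt_mem {γ : Nm P₀} (hγ : γ ∈ gn.N) {x : ℕ → RO P₀} (hx : nm x ∈ gn.N) :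
    nm (wV γ x) ∈ gn.N := by
  obtain ⟨k, hk | hk⟩ := hS.req .wt [γ, nm x] (by simpa using ⟨hγ, hx⟩)
  · obtain ⟨y, hy, hy'⟩ := hk
    have e : y = nm (wV γ (rl (nm x))) := hy'
    rw [rl_nm] at e
    rw [← e]
    exact hy
  · exact absurd rfl (hk _ le_rfl (nm (wV γ (rl (nm x)))))

theorem nB_mem : nB w g ∈ gn.N := by
  obtain ⟨k, hk | hk⟩ := hS.req .setB [] (by simp)
  · obtain ⟨x, hx, hx'⟩ := hk
    have e : x = nB w g := hx'
    rw [← e]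
    exact hx
  · exact absurd rfl (hk _ le_rfl (nB w g))

theorem stV_mem : nm (stV A₀) ∈ gn.N := by
  obtain ⟨k, hk | hk⟩ := hS.req .setA [] (by simp)
  · obtain ⟨x, hx, hx'⟩ := hk
    have e : x = nm (stV A₀) := hx'
    rw [← e]
    exact hx
  · exact absurd rfl (hk _ le_rfl (nm (stV A₀)))

theorem cst_mem (x₀ : Node) : nm (zcV fun _ a => ⨆ _ : a = x₀, (⊤ : RO P₀)) ∈ gn.N := by
  obtain ⟨k, hk | hk⟩ := hS.req (.cst x₀) [] (by simp)
  · obtain ⟨x, hx, hx'⟩ := hk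
    have e : x = nm (zcV fun _ a => ⨆ _ : a = x₀, (⊤ : RO P₀)) := hx'
    rw [← e]
    exact hx
  · exact absurd rfl (hk _ le_rfl (nm (zcV fun _ a => ⨆ _ : a = x₀, (⊤ : RO P₀))))

omit hS in
theorem real_mem {x : ℕ → RO P₀} (hx : nm x ∈ gn.N) : pv (pt gn) x ∈ realsP gn.M :=
  ⟨nm x, hx, val_nm gn hx⟩

theorem of_real {y : ℕ → Prop} (hy : y ∈ realsP gn.M) :
    ∃ x : ℕ → RO P₀, nm x ∈ gn.N ∧ pv (pt gn) x = y := by
  obtain ⟨τ, hτ, -, hτ2, -⟩ := exists_name_of_real gn hy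
  exact ⟨rl τ, re_mem hS hτ, funext fun n => propext (hτ2 n)⟩

theorem fm_tot {φ : ℕ → ℕ → RO P₀} (h : IsFn Set.univ φ) (hN : nm (gT φ) ∈ gn.N) (m : ℕ) :
    ∃ k, Fr (pt gn) (φ m k) := by
  have h1 : Fr (pt gn) (⨆ k, un (rl (nm (gT φ))) m k) ↔ ∃ k, Fr (pt gn) (un (rl (nm (gT φ))) m k) :=
    hS.pt (.tot m) [nm (gT φ)] (by simpa using hN)
  rw [rl_nm, un_gT h] at h1
  exact h1.1 (fr_of_top _ (h.tot m))

theorem fm_le {φ : ℕ → ℕ → RO P₀} (h : IsFn Set.univ φ) (hN : nm (gT φ) ∈ gn.N) (m k : ℕ) :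
    Fr (pt gn) (φ m k) ↔ Fm (pt gn) φ m ≤ k := fm_iff h (fm_tot hS h hN m) k

theorem fm_eq {φ : ℕ → ℕ → RO P₀} (h : IsFn Set.univ φ) (hN : nm (gT φ) ∈ gn.N) (m k : ℕ) :
    Fr (pt gn) (eqN (φ m) k) ↔ Fm (pt gn) φ m = k := by
  have h1 : Fr (pt gn) (eqN (un (rl (nm (gT φ))) m) k) ↔
      Fr (pt gn) (un (rl (nm (gT φ))) m k) ∧ ∀ j, j < k → ¬ Fr (pt gn) (un (rl (nm (gT φ))) m j) :=
    hS.pt (.eq m k) [nm (gT φ)] (by simpa using hN)
  rw [rl_nm, un_gT h] at h1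
  rw [h1]
  simp only [fm_le hS h hN]
  constructor
  · rintro ⟨h2, h3⟩
    by_contra hne
    exact h3 (Fm (pt gn) φ m) (by omega) le_rfl
  · rintro rfl
    exact ⟨le_rfl, fun j hj => by omega⟩

theorem fm_graph {φ : ℕ → ℕ → RO P₀} (h : IsFn Set.univ φ) (hN : nm (gT φ) ∈ gn.N) :
    pv (pt gn) (gT φ) = gr (Ft (pt gn) φ) := by
  funext c
  apply propext
  by_cases hc : ∃ (a : Node) (k : ℕ), c = Nat.pair (Encodable.encode a) k
  · obtain ⟨a, k, rfl⟩ := hc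
    change Fr (pt gn) (gT φ (Nat.pair (Encodable.encode a) k)) ↔ _
    rw [gT_pair, fm_eq hS h hN]
    constructor
    · rintro rfl
      exact ⟨a, rfl⟩
    · rintro ⟨b, hb⟩
      obtain ⟨h1, h2⟩ := Nat.pair_eq_pair.1 hb
      rw [Encodable.encode_injective h1]
      exact h2.symm
  · constructor
    · intro h1
      exfalso
      refine not_fr_bot (pt gn) (fr_mono ?_ h1)
      exact iSup_le fun a => iSup_le fun k => iSup_le fun e => absurd ⟨a, k, e⟩ hc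
    · rintro ⟨a, ha⟩
      exact absurd ⟨a, _, ha⟩ hc

theorem fm_uV {φ : ℕ → ℕ → RO P₀} (h : IsFn Set.univ φ) (hN : nm (gT φ) ∈ gn.N) (a : Node) :
    Fr (pt gn) (uV φ a) ↔ a ∈ U (Ft (pt gn) φ) := by
  have h1 : Fr (pt gn) (uV (un (rl (nm (gT φ)))) a) ↔ ∀ (i : ℕ) (_ : i < a.length),
      ¬ Fr (pt gn) (eqN (un (rl (nm (gT φ))) (N (a.take i))) a[i]) :=
    hS.pt (.uv a) [nm (gT φ)] (by simpa using hN)
  rw [rl_nm, un_gT h] at h1
  rw [h1]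
  refine forall_congr' fun i => forall_congr' fun hi => ?_
  rw [fm_eq hS h hN]
  exact ⟨fun h2 h3 => h2 h3.symm, fun h2 h3 => h2 h3.symm⟩

omit hS in
theorem leStar_iff (G : GF P₀) (φ ψ : ℕ → ℕ → RO P₀) :
    LeStar (Ft G φ) (Ft G ψ) ↔ ∃ m, ∀ n, m ≤ n → Fm G φ n ≤ Fm G ψ n := by
  have h1 : LeStar (Ft G φ) (Ft G ψ) ↔ {n | ¬ Fm G φ n ≤ Fm G ψ n}.Finite :=
    N_fin_iff fun n => ¬ Fm G φ n ≤ Fm G ψ n
  rw [h1]
  constructor
  · intro h
    obtain ⟨m, hm⟩ := h.bddAbove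
    refine ⟨m + 1, fun n hn => ?_⟩
    by_contra hne
    have := hm hne
    omega
  · rintro ⟨m, hm⟩
    refine (Set.finite_Iio m).subset fun n hn => ?_
    by_contra hne
    exact hn (hm n (not_lt.1 hne))

theorem fm_leS {φ ψ : ℕ → ℕ → RO P₀} (h : IsFn Set.univ φ) (hN : nm (gT φ) ∈ gn.N)
    (h' : IsFn Set.univ ψ) (hN' : nm (gT ψ) ∈ gn.N) :
    Fr (pt gn) (leS φ ψ) ↔ LeStar (Ft (pt gn) φ) (Ft (pt gn) ψ) := by
  have h1 : Fr (pt gn) (leS (un (rl (nm (gT φ)))) (un (rl (nm (gT ψ))))) ↔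
      ∃ m, ∀ n, m ≤ n → ∀ k, Fr (pt gn) (un (rl (nm (gT ψ))) n k) →
        Fr (pt gn) (un (rl (nm (gT φ))) n k) :=
    hS.pt .le [nm (gT φ), nm (gT ψ)] (by simpa using ⟨hN, hN'⟩)
  rw [rl_nm, rl_nm, un_gT h, un_gT h'] at h1
  rw [h1, leStar_iff]
  simp only [fm_le hS h hN, fm_le hS h' hN']
  refine exists_congr fun m => forall_congr' fun n => forall_congr' fun _ => ?_
  exact ⟨fun h2 => h2 _ le_rfl, fun h2 k hk => h2.trans hk⟩

omit hS

/-- The set of functions. -/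
def BB (gn : Gen W) (w : J → RO P₀) (g : J → ℕ → ℕ → RO P₀) : Set (Node → ℕ) :=
  {f | ∃ j, nm (gT (g j)) ∈ gn.N ∧ Fr (pt gn) (w j) ∧ f = Ft (pt gn) (g j)}

include hS

theorem bb_mem (hW : WScale w g) : gr '' BB gn w g ∈ setsP gn.M := by
  refine ⟨nB w g, nB_mem hS, ?_⟩
  ext z
  rw [gn.mem_val, ZFSet.mem_range]
  constructor
  · rintro ⟨⟨⟨j, r⟩, hr⟩, hN, ⟨k, hk⟩, hz⟩
    have hN' : nm (gT (g j)) ∈ gn.N := hN
    have hz' : gn.val (nm (gT (g j))) = z := hz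
    rw [val_nm gn hN'] at hz'
    refine ⟨⟨gr (Ft (pt gn) (g j)), Ft (pt gn) (g j),
      ⟨j, hN', (fr_pt gn).2 ⟨k, RO.mem_lower hk hr⟩, rfl⟩, rfl⟩, ?_⟩
    rw [← hz']
    exact congrArg realP (fm_graph hS (hW.fn j) hN').symm
  · rintro ⟨⟨_, f, ⟨j, hN, hb, rfl⟩, rfl⟩, hz⟩
    obtain ⟨k, hk⟩ := (fr_pt gn).1 hb
    refine ⟨⟨(j, gn.pc k), hk⟩, hN, ⟨k, le_rfl⟩, ?_⟩
    change gn.val (nm (gT (g j))) = z
    rw [val_nm gn hN, ← hz]
    exact congrArg realP (fm_graph hS (hW.fn j) hN)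

theorem bb_sub (hW : WScale w g) : ∀ f ∈ BB gn w g, gr f ∈ realsP gn.M := by
  rintro f ⟨j, hN, -, rfl⟩
  rw [← fm_graph hS (hW.fn j) hN]
  exact real_mem hN

theorem bb_strict (hW : WScale w g) {j : J} (hN : nm (gT (g j)) ∈ gn.N) (m : ℕ) :
    Fm (pt gn) (g j) m < Fm (pt gn) (g j) (m + 1) := by
  have h1 := (fm_le hS (hW.fn j) hN (m + 1) (Fm (pt gn) (g j) (m + 1))).2 le_rfl
  cases hk : Fm (pt gn) (g j) (m + 1) with
  | zero =>
    rw [hk, hW.zero] at h1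
    exact absurd h1 (not_fr_bot _)
  | succ k =>
    rw [hk] at h1
    have h2 := (fm_le hS (hW.fn j) hN m k).1 (fr_mono (hW.strict j m k) h1)
    omega

theorem bb_inc (hW : WScale w g) : ∀ f ∈ BB gn w g, Increasing f := by
  rintro f ⟨j, hN, -, rfl⟩
  have hm : StrictMono (Fm (pt gn) (g j)) := strictMono_nat_of_lt_succ (bb_strict hS hW hN)
  refine ⟨fun s u hu => hm ?_, fun s n m hnm => hm ?_⟩
  · have h1 : 0 < u.length := List.length_pos_iff.2 hu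
    simp only [N, List.length_append, List.sum_append]
    omega
  · simp only [N, List.length_append, List.sum_append, List.length_cons, List.length_nil,
      List.sum_cons, List.sum_nil]
    omega

theorem bb_mono (hW : WScale w g) {i j : J} (hi : nm (gT (g i)) ∈ gn.N) (hj : nm (gT (g j)) ∈ gn.N)
    (hi' : Fr (pt gn) (w i)) (hj' : Fr (pt gn) (w j)) (h : i ≤ j) :
    LeStar (Ft (pt gn) (g i)) (Ft (pt gn) (g j)) := by
  rcases h.lt_or_eq with h | rfl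
  · exact (fm_leS hS (hW.fn i) hi (hW.fn j) hj).1 (fr_mono (hW.le i j h) (fr_inf.2 ⟨hi', hj'⟩))
  · exact (leStar_iff _ _ _).2 ⟨0, fun _ _ => le_rfl⟩

theorem bb_not (hW : WScale w g) {i j : J} (hi : nm (gT (g i)) ∈ gn.N) (hj : nm (gT (g j)) ∈ gn.N)
    (hi' : Fr (pt gn) (w i)) (hj' : Fr (pt gn) (w j)) (h : i < j) :
    ¬ LeStar (Ft (pt gn) (g j)) (Ft (pt gn) (g i)) := by
  intro h1
  have h2 := (fm_leS hS (hW.fn j) hj (hW.fn i) hi).2 h1
  have h3 := fr_inf.2 ⟨fr_inf.2 ⟨hi', hj'⟩, h2⟩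
  rw [hW.nle i j h] at h3
  exact not_fr_bot _ h3

/-- The index is determined by the function. -/
theorem bb_inj (hW : WScale w g) {i j : J} (hi : nm (gT (g i)) ∈ gn.N)
    (hj : nm (gT (g j)) ∈ gn.N) (hi' : Fr (pt gn) (w i)) (hj' : Fr (pt gn) (w j))
    (h : Ft (pt gn) (g i) = Ft (pt gn) (g j)) : i = j := by
  have hr : LeStar (Ft (pt gn) (g i)) (Ft (pt gn) (g i)) := (leStar_iff _ _ _).2 ⟨0, fun _ _ => le_rfl⟩
  rcases lt_trichotomy i j with h1 | h1 | h1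
  · exact absurd (by rw [← h]; exact hr) (bb_not hS hW hi hj hi' hj' h1)
  · exact h1
  · exact absurd (by rw [← h]; exact hr) (bb_not hS hW hj hi hj' hi' h1)

theorem bb_lt (hW : WScale w g) {i j : J} (hi : nm (gT (g i)) ∈ gn.N)
    (hj : nm (gT (g j)) ∈ gn.N) (hi' : Fr (pt gn) (w i)) (hj' : Fr (pt gn) (w j))
    (h : LeStar (Ft (pt gn) (g i)) (Ft (pt gn) (g j)))
    (hne : Ft (pt gn) (g i) ≠ Ft (pt gn) (g j)) : i < j := by
  by_contra hle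
  rcases (not_lt.1 hle).lt_or_eq with h1 | h1
  · exact bb_not hS hW hj hi hj' hi' h1 h
  · exact hne (by rw [h1])

theorem bb_eq_of_name (hW : WScale w g) {i j : J} (hi : nm (gT (g i)) ∈ gn.N)
    (hi' : Fr (pt gn) (w i)) (hj' : Fr (pt gn) (w j)) (h : nm (gT (g i)) = nm (gT (g j))) :
    i = j := by
  have e : g i = g j := by
    rw [← un_gT (hW.fn i), ← un_gT (hW.fn j), ← rl_nm (gT (g i)), h, rl_nm]
  have hj : nm (gT (g j)) ∈ gn.N := by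
    rw [← h]
    exact hi
  exact bb_inj hS hW hi hj hi' hj' (by rw [e])

theorem dec_iff {x : ℕ → RO P₀} (hx : nm x ∈ gn.N) (m k : ℕ) :
    Fr (pt gn) (decV x m k) ↔ fnLe (pv (pt gn) x) m k := by
  have h : Fr (pt gn) (decV (rl (nm x)) m k) ↔ fnLe (pv (pt gn) (rl (nm x))) m k :=
    hS.pt (.dec m k) [nm x] (by simpa using hx)
  rwa [rl_nm] at h

omit hS in
theorem fnLe_gr (f : Node → ℕ) (a : Node) (k : ℕ) : fnLe (gr f) (Encodable.encode a) k ↔ f a ≤ k := by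
  constructor
  · rintro (⟨j, hj, b, hb⟩ | h)
    · obtain ⟨h1, h2⟩ := Nat.pair_eq_pair.1 hb
      have h3 := Encodable.encode_injective h1
      subst h3
      have h4 : j = f a := h2
      omega
    · exact absurd ⟨a, rfl⟩ (h (f a))
  · intro h
    exact Or.inl ⟨f a, h, a, rfl⟩

theorem bb_unb (hW : WScale w g) : ∀ X : Set Node, stc X ∈ realsP gn.M → X.Infinite →
    ∀ f : Node → ℕ, gr f ∈ realsP gn.M → ∃ h ∈ BB gn w g, ¬ {s ∈ X | ¬ h s ≤ f s}.Finite := by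
  intro X _ hinf f hf
  obtain ⟨x, hx, hxf⟩ := of_real hS hf
  obtain ⟨k, hk | hk⟩ := hS.req .dom [nm x] (by simpa using hx)
  · obtain ⟨y, hy, j, rfl, hw, hle⟩ := hk
    have hle' : leS (domV (rl (nm x))) (g j) = ⊤ := hle
    refine ⟨Ft (pt gn) (g j), ⟨j, hy, fr_of_top _ hw, rfl⟩, fun hfin => hinf ?_⟩
    have h1 : Fr (pt gn) (leS (domV (rl (nm x))) (un (rl (nm (gT (g j)))))) ↔
        ∃ m, ∀ n, m ≤ n → ∀ k, Fr (pt gn) (un (rl (nm (gT (g j)))) n k) →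
          Fr (pt gn) (domV (rl (nm x)) n k) :=
      hS.pt .leD [nm x, nm (gT (g j))] (by simpa using ⟨hx, hy⟩)
    rw [rl_nm, rl_nm, un_gT (hW.fn j)] at h1
    rw [rl_nm] at hle'
    obtain ⟨m, hm⟩ := h1.1 (fr_of_top _ hle')
    have key : ∀ s : Node, m ≤ N s → f s < Ft (pt gn) (g j) s := by
      intro s hs
      have h2 := hm (N s) hs (Ft (pt gn) (g j) s) ((fm_le hS (hW.fn j) hy _ _).2 le_rfl)
      have h3 : Fr (pt gn) (⨆ i : ℕ, ⨆ _ : i < Ft (pt gn) (g j) s, decV x (Encodable.encode s) i) :=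
        fr_mono ((iInf_le _ s).trans (iInf_le _ le_rfl)) h2
      have hne : Ft (pt gn) (g j) s ≠ 0 := by
        intro h0
        rw [h0] at h3
        simp only [not_lt_zero, iSup_false, iSup_bot] at h3
        exact not_fr_bot _ h3
      have h4 : Fr (pt gn) (decV x (Encodable.encode s) (Ft (pt gn) (g j) s - 1)) := by
        refine fr_mono (iSup_le fun i => iSup_le fun hi => ?_) h3
        exact monotone_nat_of_le_succ ((decV_isFn x).mono (Encodable.encode s)) (by omega)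
      have h5 := (dec_iff hS hx _ _).1 h4
      rw [hxf, fnLe_gr] at h5
      omega
    refine (hfin.union (N_fin m)).subset fun s hs => ?_
    rcases le_total (N s) m with h6 | h6
    · exact Or.inr h6
    · exact Or.inl ⟨hs, not_le.2 (key s h6)⟩
  · exfalso
    obtain ⟨j, hw, hj⟩ := hW.dom Unit (fun _ => domV (rl (nm x))) fun _ => domV_fn _
    exact hk _ le_rfl (nm (gT (g j))) ⟨j, rfl, hw, hj ()⟩

/-- The function with the graph coded by `φ`. -/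
theorem cod_graph {φ : ℕ → ℕ → RO P₀} (h : IsFn Set.univ φ) (hN : nm (codV φ) ∈ gn.N) :
    pv (pt gn) (codV φ) = gr (Fm (pt gn) φ) ∧ ∀ m k, Fr (pt gn) (φ m k) ↔ Fm (pt gn) φ m ≤ k := by
  have ht : ∀ m, ∃ k, Fr (pt gn) (φ m k) := by
    intro m
    have h1 : Fr (pt gn) (⨆ k, decV (rl (nm (codV φ))) m k) ↔
        ∃ k, Fr (pt gn) (decV (rl (nm (codV φ))) m k) :=
      hS.pt (.totD m) [nm (codV φ)] (by simpa using hN)
    rw [rl_nm, decV_codV h] at h1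
    exact h1.1 (fr_of_top _ (h.tot m))
  have hle : ∀ m k, Fr (pt gn) (φ m k) ↔ Fm (pt gn) φ m ≤ k := fun m k => fm_iff h (ht m) k
  refine ⟨?_, hle⟩
  have heq : ∀ m k, Fr (pt gn) (eqN (φ m) k) ↔ Fm (pt gn) φ m = k := by
    intro m k
    have h1 : Fr (pt gn) (eqN (decV (rl (nm (codV φ))) m) k) ↔
        Fr (pt gn) (decV (rl (nm (codV φ))) m k) ∧
          ∀ j, j < k → ¬ Fr (pt gn) (decV (rl (nm (codV φ))) m j) :=
      hS.pt (.eqD m k) [nm (codV φ)] (by simpa using hN)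
    rw [rl_nm, decV_codV h] at h1
    rw [h1]
    simp only [hle]
    constructor
    · rintro ⟨h2, h3⟩
      by_contra hne
      exact h3 (Fm (pt gn) φ m) (by omega) le_rfl
    · rintro rfl
      exact ⟨le_rfl, fun j hj => by omega⟩
  funext c
  apply propext
  change Fr (pt gn) (eqN (φ (Nat.unpair c).1) (Nat.unpair c).2) ↔ _
  rw [heq]
  constructor
  · intro h2
    refine ⟨(Nat.unpair c).1, ?_⟩
    change c = Nat.pair (Nat.unpair c).1 (Fm (pt gn) φ (Nat.unpair c).1)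
    rw [h2, Nat.pair_unpair]
  · rintro ⟨a, ha⟩
    have ha' : c = Nat.pair a (Fm (pt gn) φ a) := ha
    rw [ha', Nat.unpair_pair]

theorem wit_iff {γ : Nm P₀} (hγ : γ ∈ gn.N) {C : Set (ℕ → Prop)}
    (hC : ∀ z, realP z ∈ gn.val γ ↔ z ∈ C) {x : ℕ → RO P₀} (hx : nm x ∈ gn.N) (c : ℕ) :
    pv (pt gn) (wV γ x) c ↔ sh c (pv (pt gn) x) ∈ C := by
  have h2 := sh_mem hS c hx
  have h3 : Fr (pt gn) (SE γ (shV c x)) ↔ realP (fun i => Fr (pt gn) (shV c x i)) ∈ gn.val γ := by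
    rw [← val_nm gn h2, ← gn.mem_iff h2 hγ, fr_pt gn]
    rfl
  have e : (fun i => Fr (pt gn) (shV c x i)) = sh c (pv (pt gn) x) :=
    funext fun i => propext (h32_fr_shV _ _ i)
  change Fr (pt gn) (SE γ (shV c x)) ↔ _
  rw [h3, e, hC]

theorem sh_inj {s t : ℕ} {x y : ℕ → Prop} (h : sh s x = sh t y) : s = t ∧ x = y := by
  have key : ∀ (s t : ℕ) (x y : ℕ → Prop), sh s x = sh t y → ¬ s < t := by
    intro s t x y h hlt
    have h1 : sh t y s := Or.inl hlt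
    rw [← h] at h1
    rcases h1 with h1 | h1 <;> omega
  have h1 := key s t x y h
  have h2 := key t s y x h.symm
  have h3 : s = t := by omega
  subst h3
  refine ⟨rfl, funext fun n => propext ?_⟩
  have h4 : ∀ z : ℕ → Prop, sh s z (n + s + 1) ↔ z n := by
    intro z
    unfold sh
    have e : n + s + 1 - s - 1 = n := by omega
    rw [e]
    constructor
    · rintro (h | h)
      · omega
      · exact h.2
    · intro h
      exact Or.inr ⟨by omega, h⟩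
  rw [← h4 x, h, h4 y]

theorem bb_type (hW : WScale w g) : ∀ f₀ ∈ BB gn w g, ∀ φ : (Node → ℕ) → ℕ → ℕ,
    {x | ∃ f ∈ BB gn w g, LeStar f f₀ ∧ f ≠ f₀ ∧ ∃ n, x = shf (Nat.pair n (φ f n)) (gr f)} ∈
      setsP gn.M →
    ∃ h : ℕ → ℕ, gr h ∈ realsP gn.M ∧ ∀ f ∈ BB gn w g, LeStar f f₀ → f ≠ f₀ →
      {n | ¬ φ f n ≤ h n}.Finite := by
  rintro f₀ ⟨j₀, hN₀, hw₀, rfl⟩ φ hC
  obtain ⟨γ, hγ, hγC⟩ := hC
  have hγC' : ∀ z, realP z ∈ gn.val γ ↔ z ∈ {x | ∃ f ∈ BB gn w g, LeStar f (Ft (pt gn) (g j₀)) ∧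
      f ≠ Ft (pt gn) (g j₀) ∧ ∃ n, x = shf (Nat.pair n (φ f n)) (gr f)} := by
    intro z
    rw [hγC, ZFSet.mem_range]
    constructor
    · rintro ⟨x, hx⟩
      have h1 : x.1 = z := realP_inj hx
      rw [← h1]
      exact x.2
    · intro hz
      exact ⟨⟨z, hz⟩, rfl⟩
  obtain ⟨k, hk⟩ := hS.req .bd [γ, nm (gT (g j₀))] (by simpa using ⟨hγ, hN₀⟩)
  have hex : ∃ k, ∃ x ∈ gn.N, ∃ j, nm (gT (g j₀)) = nm (gT (g j)) ∧ gn.pc k ∈ w j ∧
      ∃ ψ, IsFn Set.univ ψ ∧ x = nm (codV ψ) ∧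
        ∀ i, i < j → leS (decV (wV γ (gT (g i)))) ψ = ⊤ := by
    rcases hk with hk | hk
    · exact ⟨k, hk⟩
    · exfalso
      obtain ⟨k', hk'⟩ := (fr_pt gn).1 hw₀
      have := hW.small j₀
      obtain ⟨j₁, -, hj₁⟩ := hW.dom (Shrink.{0} (Set.Iio j₀))
        (fun i => decV (wV γ (gT (g ((equivShrink _).symm i).1)))) fun _ => decV_isFn _
      refine hk (gn.pc (k + k')) (gn.pc_le (by omega)) (nm (codV (g j₁)))
        ⟨j₀, rfl, RO.mem_lower (gn.pc_le (by omega)) hk', g j₁, hW.fn j₁, rfl, fun i hi => ?_⟩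
      have h1 := hj₁ (equivShrink _ ⟨i, hi⟩)
      have h2 : leS (decV (wV γ (gT (g i)))) (g j₁) = ⊤ := by simpa using h1
      exact h2
  obtain ⟨k', x, hx, j, hj, hkj, ψ, hψ, rfl, hle⟩ := hex
  have hj' : j₀ = j := bb_eq_of_name hS hW hN₀ hw₀ ((fr_pt gn).2 ⟨k', hkj⟩) hj
  subst hj'
  obtain ⟨hgr, hFm⟩ := cod_graph hS hψ hx
  refine ⟨Fm (pt gn) ψ, by rw [← hgr]; exact real_mem hx, ?_⟩
  rintro f ⟨i, hi, hwi, rfl⟩ hls hne
  have hlt := bb_lt hS hW hi hN₀ hwi hw₀ hls hne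
  have hwt := wt_mem hS hγ hi
  have h1 : Fr (pt gn) (leS (decV (rl (nm (wV γ (gT (g i)))))) (decV (rl (nm (codV ψ))))) ↔
      ∃ m, ∀ n, m ≤ n → ∀ k, Fr (pt gn) (decV (rl (nm (codV ψ))) n k) →
        Fr (pt gn) (decV (rl (nm (wV γ (gT (g i))))) n k) :=
    hS.pt .leB [nm (wV γ (gT (g i))), nm (codV ψ)] (by simpa using ⟨hwt, hx⟩)
  rw [rl_nm, rl_nm, decV_codV hψ] at h1
  obtain ⟨m, hm⟩ := h1.1 (fr_of_top _ (hle i hlt))
  refine (Set.finite_Iio m).subset fun n hn => ?_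
  by_contra hnm
  apply hn
  have h2 := hm n (not_lt.1 hnm) (Fm (pt gn) ψ n) ((hFm n _).2 le_rfl)
  have h3 := (dec_iff hS hwt n _).1 h2
  have hwi' : ∀ c, pv (pt gn) (wV γ (gT (g i))) c ↔ ∃ n, c = Nat.pair n (φ (Ft (pt gn) (g i)) n) := by
    intro c
    rw [wit_iff hS hγ hγC' hi c, fm_graph hS (hW.fn i) hi]
    constructor
    · rintro ⟨f, hf, -, -, n', hn'⟩
      have hn'' : sh c (gr (Ft (pt gn) (g i))) = sh (Nat.pair n' (φ f n')) (gr f) := hn'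
      obtain ⟨h4, h5⟩ := sh_inj hS hn''
      have h6 : Ft (pt gn) (g i) = f := by
        funext a
        have h7 := fnLe_gr (Ft (pt gn) (g i)) a
        have h8 := fnLe_gr f a
        rw [h5] at h7
        exact le_antisymm ((h7 _).1 ((h8 _).2 le_rfl)) ((h8 _).1 ((h7 _).2 le_rfl))
      subst h6
      exact ⟨n', h4⟩
    · rintro ⟨n', rfl⟩
      exact ⟨_, ⟨i, hi, hwi, rfl⟩, hls, hne, n', rfl⟩
  rcases h3 with ⟨l, hl, h4⟩ | h4
  · obtain ⟨n', hn'⟩ := (hwi' _).1 h4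
    obtain ⟨h5, h6⟩ := Nat.pair_eq_pair.1 hn'
    subst h5
    omega
  · exact absurd ((hwi' _).2 ⟨n, rfl⟩) (h4 _)

theorem bb_root (hW : WScale w g) : ∀ n : ℕ, ∀ f ∈ BB gn w g, ∃ h ∈ BB gn w g,
    LeStar f h ∧ n < h [] := by
  rintro n f ⟨j₀, hN₀, hw₀, rfl⟩
  obtain ⟨k, hk⟩ := hS.req (.root n) [nm (gT (g j₀))] (by simpa using hN₀)
  have hex : ∃ k, ∃ x ∈ gn.N, ∃ j j', nm (gT (g j₀)) = nm (gT (g j)) ∧ gn.pc k ∈ w j ∧ j ≤ j' ∧
      x = nm (gT (g j')) ∧ gn.pc k ∈ w j' ⊓ (g j' 0 n)ᶜ := by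
    rcases hk with hk | hk
    · exact ⟨k, hk⟩
    · exfalso
      obtain ⟨k', hk'⟩ := (fr_pt gn).1 hw₀
      have h1 : gn.pc (k + k') ∈ ⨆ j' : J, ⨆ _ : j₀ ≤ j', w j' ⊓ (g j' 0 n)ᶜ := by
        rw [hW.root]
        exact RO.mem_top _
      obtain ⟨r, hr, j', hj'⟩ := RO.mem_iSup.1 h1 _ le_rfl
      obtain ⟨r', hr', hle, hj''⟩ := RO.mem_iSup.1 hj' _ le_rfl
      have hr'' : r' ≤ gn.pc (k + k') := hr'.trans hr
      exact hk r' (hr''.trans (gn.pc_le (by omega))) (nm (gT (g j')))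
        ⟨j₀, j', rfl, RO.mem_lower (hr''.trans (gn.pc_le (by omega))) hk', hle, rfl, hj''⟩
  obtain ⟨k', x, hx, j, j', hj, hkj, hle, rfl, hkj'⟩ := hex
  have hj' : j₀ = j := bb_eq_of_name hS hW hN₀ hw₀ ((fr_pt gn).2 ⟨k', hkj⟩) hj
  subst hj'
  have h1 := fr_inf.1 ((fr_pt gn).2 ⟨k', hkj'⟩)
  refine ⟨Ft (pt gn) (g j'), ⟨j', hx, h1.1, rfl⟩, bb_mono hS hW hN₀ hx hw₀ h1.1 hle, ?_⟩
  have h2 : Fr (pt gn) (un (rl (nm (gT (g j')))) 0 n)ᶜ ↔
      ¬ Fr (pt gn) (un (rl (nm (gT (g j')))) 0 n) := hS.pt (.rt n) [nm (gT (g j'))] (by simpa using hx)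
  rw [rl_nm, un_gT (hW.fn j'), fm_le hS (hW.fn j') hx] at h2
  exact not_le.1 (h2.1 h1.2)

theorem bb_scale (hW : WScale w g) : BScaleIn (realsP gn.M) (setsP gn.M) (BB gn w g) where
  mem := bb_mem hS hW
  sub := bb_sub hS hW
  increasing := bb_inc hS hW
  unbounded := bb_unb hS hW
  linear := by
    rintro f ⟨i, hi, hi', rfl⟩ h ⟨j, hj, hj', rfl⟩
    rcases le_total i j with h1 | h1
    · exact Or.inl (bb_mono hS hW hi hj hi' hj' h1)
    · exact Or.inr (bb_mono hS hW hj hi hj' hi' h1)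
  antisymm := by
    rintro f ⟨i, hi, hi', rfl⟩ h ⟨j, hj, hj', rfl⟩ h1 h2
    rcases lt_trichotomy i j with h3 | rfl | h3
    · exact absurd h2 (bb_not hS hW hi hj hi' hj' h3)
    · rfl
    · exact absurd h1 (bb_not hS hW hj hi hj' hi' h3)
  wf := by
    intro D hD hne
    have := hW.wf
    let S : Set J := {j | nm (gT (g j)) ∈ gn.N ∧ Fr (pt gn) (w j) ∧ Ft (pt gn) (g j) ∈ D}
    have hS' : S.Nonempty := by
      obtain ⟨f, hf⟩ := hne
      obtain ⟨j, hj, hj', rfl⟩ := hD hf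
      exact ⟨j, hj, hj', hf⟩
    have hwf : WellFounded (fun a b : J => a < b) := IsWellFounded.wf
    obtain ⟨h1, h2, h3⟩ := hwf.min_mem S hS'
    refine ⟨_, h3, fun h hh => ?_⟩
    obtain ⟨j, hj, hj', rfl⟩ := hD hh
    exact bb_mono hS hW h1 hj h2 hj' (not_lt.1 (hwf.not_lt_min S (x := j) ⟨hj, hj', hh⟩))
  orderType := bb_type hS hW
  root := bb_root hS hW

end Point

end Pool.Agent.Helper50.DS
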