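import Pool.Agent.Helper32.DS.Cod
import Pool.Agent.Helper32.HB.Cho
import Pool.Agent.Helper32.HB.Pnt
import Pool.Agent.Helper32.HB.Nam

/-! # DS-S1: requirements and events -/

set_option autoImplicit false
set_option linter.unusedSectionVars false

namespace Pool.Agent.Helper50.DS

open Set Filter Pool.Agent.Helper33.HM Pool.Agent.Helper33.HMG Pool.Agent.Helper32.HB
open Pool.Agent.Helper94.BA (decV codV fnLe shV sh decV_isFn decV_codV h82_eqN_sup h32_Ev h32_self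
  h32_all h32_ex h32_not h32_imp h32_or h32_and h32_congr h32_sq h32_cq h32_sq_nm h32_fr_shV
  h32_exists_compl)

/-- The requirements of the generic sequence. -/
inductive TrR : Type
  | setB | setA | re | sh (s : ℕ) | sq (i : ℕ) | wt | bd | dom | root (n : ℕ) | cst (x : Node)
  | cl (x : Node) | cv (x : Node) | nc (x : Node)
  deriving Countable

/-- The events which must hold at the generic point. -/
inductive TrE : Type
  | tot (m : ℕ) | totD (m : ℕ) | le | leD | leB | eq (m k : ℕ) | eqD (m k : ℕ) | uv (a : Node)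
  | rt (n : ℕ) | cl (n : ℕ) (x : Node) (m : ℕ) | cv1 | cv2 | cv3 (x : Node) | cv4
  | dec (m k : ℕ)
  deriving Countable

section Tra

variable {P₀ : Type 1} [Preorder P₀] [OrderTop P₀]

/-- The name of the set of graphs. -/
def nB {J : Type 1} (w : J → RO P₀) (g : J → ℕ → ℕ → RO P₀) : Nm P₀ :=
  .mk {y : J × P₀ // y.2 ∈ w y.1} (fun y => nm (gT (g y.1.1))) fun y => y.1.2

/-- The function which is coded by the set `γ` at the index `x`. -/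
def wV (γ : Nm P₀) (x : ℕ → RO P₀) (n : ℕ) : RO P₀ := SE γ (shV n x)

/-- The requirements. -/
def TrW {J : Type 1} [LinearOrder J] (w : J → RO P₀) (g : J → ℕ → ℕ → RO P₀) (A : Set Node) :
    TrR → (ℕ → Nm P₀) → P₀ → Nm P₀ → Prop
  | .setB, _, _, x => x = nB w g
  | .setA, _, _, x => x = nm (stV A)
  | .re, v, _, x => x = nm (rl (v 0))
  | .sh s, v, _, x => x = nm (shV s (rl (v 0)))
  | .sq i, v, _, x => x = nm (h32_sq (v 0) i)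
  | .wt, v, _, x => x = nm (wV (v 0) (rl (v 1)))
  | .bd, v, q, x => ∃ j, v 1 = nm (gT (g j)) ∧ q ∈ w j ∧ ∃ φ, IsFn Set.univ φ ∧
      x = nm (codV φ) ∧ ∀ i, i < j → leS (decV (wV (v 0) (gT (g i)))) φ = ⊤
  | .dom, v, _, x => ∃ j, x = nm (gT (g j)) ∧ w j = ⊤ ∧ leS (domV (rl (v 0))) (g j) = ⊤
  | .root n, v, q, x => ∃ j j', v 0 = nm (gT (g j)) ∧ q ∈ w j ∧ j ≤ j' ∧ x = nm (gT (g j')) ∧
      q ∈ w j' ⊓ (g j' 0 n)ᶜ
  | .cst x₀, _, _, x => x = nm (zcV fun _ a => ⨆ _ : a = x₀, ⊤)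
  | .cl x₀, v, q, x => ∃ l : ℕ → J, ∃ n m, x = nm (h32_cq fun i => gT (g (l i))) ∧
      (∀ i, i < n → q ∈ w (l i) ⊓ uV (g (l i)) x₀) ∧
      q ∈ (clS (fun i => g (l i)) n (aOf (rl (v 0))) x₀ m)ᶜ
  | .cv x₀, v, q, x => ∃ z, x = nm (zcV z) ∧ q ∈ convV w g (aOf (rl (v 0))) x₀ z
  | .nc x₀, v, q, x => ∃ j, x = nm (gT (g j)) ∧ q ∈ w j ⊓ uV (g j) x₀ ∧
      q ∈ (⨆ K : ℕ, ⨅ k : ℕ, ⨅ _ : K ≤ k, ⨅ a : Node, zOf (rl (v 0)) k a ⇨ uV (g j) a)ᶜ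

/-- The set of natural numbers with the name `x`, at the generic filter `G`. -/
def pv (G : GF P₀) (x : ℕ → RO P₀) : ℕ → Prop := fun n => Fr G (x n)

/-- The events. -/
def TrEs : TrE → (ℕ → Nm P₀) → Set (GF P₀)
  | .tot m, v => {G | Fr G (⨆ k, un (rl (v 0)) m k) ↔ ∃ k, Fr G (un (rl (v 0)) m k)}
  | .totD m, v => {G | Fr G (⨆ k, decV (rl (v 0)) m k) ↔ ∃ k, Fr G (decV (rl (v 0)) m k)}
  | .le, v => {G | Fr G (leS (un (rl (v 0))) (un (rl (v 1)))) ↔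
      ∃ m, ∀ n, m ≤ n → ∀ k, Fr G (un (rl (v 1)) n k) → Fr G (un (rl (v 0)) n k)}
  | .leD, v => {G | Fr G (leS (domV (rl (v 0))) (un (rl (v 1)))) ↔
      ∃ m, ∀ n, m ≤ n → ∀ k, Fr G (un (rl (v 1)) n k) → Fr G (domV (rl (v 0)) n k)}
  | .leB, v => {G | Fr G (leS (decV (rl (v 0))) (decV (rl (v 1)))) ↔
      ∃ m, ∀ n, m ≤ n → ∀ k, Fr G (decV (rl (v 1)) n k) → Fr G (decV (rl (v 0)) n k)}
  | .eq m k, v => {G | Fr G (eqN (un (rl (v 0)) m) k) ↔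
      Fr G (un (rl (v 0)) m k) ∧ ∀ j, j < k → ¬ Fr G (un (rl (v 0)) m j)}
  | .eqD m k, v => {G | Fr G (eqN (decV (rl (v 0)) m) k) ↔
      Fr G (decV (rl (v 0)) m k) ∧ ∀ j, j < k → ¬ Fr G (decV (rl (v 0)) m j)}
  | .uv a, v => {G | Fr G (uV (un (rl (v 0))) a) ↔
      ∀ (i : ℕ) (_ : i < a.length), ¬ Fr G (eqN (un (rl (v 0)) (N (a.take i))) a[i])}
  | .rt n, v => {G | Fr G (un (rl (v 0)) 0 n)ᶜ ↔ ¬ Fr G (un (rl (v 0)) 0 n)}
  | .cl n x m, v => {G | Fr G (clS (fun i => un (rl (v (i + 1)))) n (aOf (rl (v 0))) x m) ↔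
      ∃ a : Node, ∃ _ : ∃ l, m ≤ l ∧ x ++ [l] <+: a,
        Fr G (aOf (rl (v 0)) a) ∧ ∀ i, i < n → Fr G (uV (un (rl (v (i + 1)))) a)}
  | .cv1, v => {G | Fr G (⨅ k : ℕ, ⨆ a : Node, zOf (rl (v 0)) k a ⊓ aOf (rl (v 1)) a) ↔
      ∀ k, ∃ a, Fr G (zOf (rl (v 0)) k a) ∧ Fr G (aOf (rl (v 1)) a)}
  | .cv2, v => {G | Fr G (⨅ k : ℕ, ⨅ a : Node, ⨅ b : Node, ⨅ _ : a ≠ b,
      (zOf (rl (v 0)) k a ⊓ zOf (rl (v 0)) k b)ᶜ) ↔
      ∀ k a b, a ≠ b → ¬ (Fr G (zOf (rl (v 0)) k a) ∧ Fr G (zOf (rl (v 0)) k b))}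
  | .cv3 x, v => {G | Fr G (⨅ m : ℕ, ⨆ K : ℕ, ⨅ k : ℕ, ⨅ _ : K ≤ k, ⨆ a : Node,
      ⨆ _ : ∃ l, m ≤ l ∧ x ++ [l] <+: a, zOf (rl (v 0)) k a) ↔
      ∀ m, ∃ K, ∀ k, K ≤ k → ∃ a : Node, ∃ _ : ∃ l, m ≤ l ∧ x ++ [l] <+: a,
        Fr G (zOf (rl (v 0)) k a)}
  | .cv4, v => {G | Fr G (⨆ K : ℕ, ⨅ k : ℕ, ⨅ _ : K ≤ k, ⨅ a : Node,
      zOf (rl (v 0)) k a ⇨ uV (un (rl (v 1))) a) ↔
      ∃ K, ∀ k, K ≤ k → ∀ a, Fr G (zOf (rl (v 0)) k a) → Fr G (uV (un (rl (v 1))) a)}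
  | .dec m k, v => {G | Fr G (decV (rl (v 0)) m k) ↔ fnLe (pv G (rl (v 0))) m k}

theorem tr_ae (r : TrE) (v : ℕ → Nm P₀) : ∀ᶠ G in aeG P₀, G ∈ TrEs r v := by
  cases r with
  | tot m => exact ae_iSup _
  | totD m => exact ae_iSup _
  | le => exact ev_leS _ _
  | leD => exact ev_leS _ _
  | leB => exact ev_leS _ _
  | eq m k => exact ev_eqN _ _
  | eqD m k => exact ev_eqN _ _
  | uv a => exact ev_uV _ _
  | rt n => exact ae_compl _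
  | cl n x m => exact ev_clS _ _ _ _ _
  | cv1 => exact ev_cv1 _ _
  | cv2 => exact ev_cv2 _
  | cv3 x => exact ev_cv3 _ _
  | cv4 => exact ev_cv4 _ _
  | dec m k => exact Pool.Agent.Helper94.BA.h32_ev_decV _ _ _

theorem not_fr_bot (G : GF P₀) : ¬ Fr G (⊥ : RO P₀) := by
  rintro ⟨p, -, hp⟩
  exact RO.not_mem_bot p hp

theorem fr_of_top (G : GF P₀) {U : RO P₀} (h : U = ⊤) : Fr G U := by
  rw [h]
  exact fr_top _

theorem fr_prop (G : GF P₀) (p : Prop) : Fr G (⨆ _ : p, (⊤ : RO P₀)) ↔ p := by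
  by_cases h : p
  · simp [h, fr_top]
  · simp [h, not_fr_bot]

theorem fr_finite_inf (G : GF P₀) (n : ℕ) (U : ℕ → RO P₀) (h : ∀ i, i < n → Fr G (U i)) :
    Fr G (⨅ i : ℕ, ⨅ _ : i < n, U i) := by
  induction n with
  | zero =>
    refine fr_of_top G ?_
    simp
  | succ n ih =>
    have h1 := ih fun i hi => h i (by omega)
    have h2 := h n (by omega)
    refine fr_mono ?_ (fr_inf.2 ⟨h1, h2⟩)
    refine le_iInf fun i => le_iInf fun hi => ?_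
    rcases Nat.lt_succ_iff_lt_or_eq.1 hi with h3 | rfl
    · exact inf_le_left.trans ((iInf_le _ i).trans (iInf_le _ h3))
    · exact inf_le_right

/-- The part of the hypotheses on a generic sequence which is used for one scale. -/
structure SideH {R : Type} {W : R → (ℕ → Nm P₀) → P₀ → Nm P₀ → Prop} (gn : Gen W) {J : Type 1}
    [LinearOrder J] (w : J → RO P₀) (g : J → ℕ → ℕ → RO P₀) (A : Set Node) : Prop where
  req : ∀ r (t : List (Nm P₀)), (∀ x ∈ t, x ∈ gn.N) →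
    ∃ k, (∃ x ∈ gn.N, TrW w g A r (asg t) (gn.pc k) x) ∨
      ∀ q, q ≤ gn.pc k → ∀ x, ¬ TrW w g A r (asg t) q x
  pt : ∀ r (t : List (Nm P₀)), (∀ x ∈ t, x ∈ gn.N) → pt gn ∈ TrEs r (asg t)

end Tra

end Pool.Agent.Helper50.DS
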